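import Mathlib
import Pool.Agent.Helper64.Tight.Refl

set_option autoImplicit false

/-!
# A reflexive Banach lattice without complemented disjoint sequences
-/

namespace Pool.Agent.Results.MP_8b637a_an.NoComplementedSequence

/-- A disjoint sequence: nonzero elements `x n` with `|x n| ∧ |x m| = 0` for `n ≠ m`. -/
def DisjointSequence {X : Type} [AddCommGroup X] [Lattice X] (x : ℕ → X) : Prop :=
  (∀ n, x n ≠ 0) ∧ ∀ n m, n ≠ m → |x n| ⊓ |x m| = 0

/-- The closed linear span of a sequence, as a set. -/
def closedSpan {X : Type} [NormedAddCommGroup X] [NormedSpace ℝ X] (x : ℕ → X) : Set X :=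
  closure (Submodule.span ℝ (Set.range x) : Set X)

/-- `Y` is complemented: it is the range of a bounded linear projection `P : X → X`. -/
def Complemented {X : Type} [NormedAddCommGroup X] [NormedSpace ℝ X] (Y : Set X) : Prop :=
  ∃ P : X →L[ℝ] X, (∀ v, P (P v) = P v) ∧ Set.range P = Y

/-- There is an infinite-dimensional reflexive Banach lattice in which the closed span of no
disjoint sequence is complemented. -/
theorem result : ∃ (X : Type) (_ : NormedAddCommGroup X) (_ : NormedSpace ℝ X) (_ : Lattice X),
    -- a Banach lattice: complete, the order is compatible with the vector space structure, and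
    -- the norm is a lattice norm
    CompleteSpace X ∧ (∀ x y z : X, x ≤ y → x + z ≤ y + z) ∧
    (∀ (c : ℝ) (x y : X), 0 ≤ c → x ≤ y → c • x ≤ c • y) ∧
    (∀ x y : X, |x| ≤ |y| → ‖x‖ ≤ ‖y‖) ∧
    -- reflexive and infinite-dimensional
    Function.Surjective (NormedSpace.inclusionInDoubleDual ℝ X) ∧ ¬ FiniteDimensional ℝ X ∧
    ∀ x : ℕ → X, DisjointSequence x → ¬ Complemented (closedSpan x) := by
  refine ⟨Pool.Agent.Helper64.Tight.E, inferInstance, inferInstance, inferInstance, inferInstance,
    fun x y z h => ?_, fun c x y hc h => smul_le_smul_of_nonneg_left h hc,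
    fun x y h => HasSolidNorm.solid h, Pool.Agent.Helper64.Tight.reflexive,
    Pool.Agent.Helper64.Tight.infinite, ?_⟩
  · gcongr
  · rintro x ⟨hx, hd⟩ ⟨P, hP, hr⟩
    refine Pool.Agent.Helper64.Tight.red x hx hd ?_
    have hmem : ∀ v, P v ∈ (Submodule.span ℝ (Set.range x)).topologicalClosure := by
      intro v
      have h1 : P v ∈ closedSpan x := by
        rw [← hr]
        exact Set.mem_range_self v
      exact h1
    refine ⟨P.codRestrict _ hmem, ?_⟩
    rintro ⟨v, hv⟩
    have h2 : v ∈ Set.range P := by
      rw [hr]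
      exact hv
    obtain ⟨w, rfl⟩ := h2
    exact Subtype.ext (hP w)

end Pool.Agent.Results.MP_8b637a_an.NoComplementedSequence
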